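import Pool.Agent.MWGQ.Stmts

/-!
# MWGQ, row SA1: the word of the doubling pentagon, level 1
-/

namespace Pool.Agent.MWGQ.H32

open Pool.Agent.Helper14_MV Pool.Agent.Helper2_MV
open Pool.Agent.MWK (pre)
open Pool.Agent.MWGN (Nm WC WT Tau Ns nl sg nn N1 N2 K0 Kb Kc T2)

theorem pw_single (k c : ℕ) : pw k [c] = List.replicate k c := by
  induction k with
  | zero => rfl
  | succ k ih =>
    have h : pw (k + 1) [c] = [c] ++ pw k [c] := by
      simp [pw, List.replicate_succ]
    rw [h, ih, List.replicate_succ]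
    rfl

theorem cbd (n : ℕ) (L C : ℕ → ℕ) (k z : ℕ) : (bd n (sg L) (sg C) (k + 1)).count z =
    (bd n (sg L) (sg C) k).count z + (if L k = z then 1 else 0) +
      (if C k = z then n + 1 else 0) := by
  unfold bd
  rw [List.range_succ, List.flatMap_append, List.count_append]
  simp only [List.flatMap_cons, List.flatMap_nil, List.append_nil, sg, pw_single,
    List.count_append, List.count_cons, List.count_nil, List.count_replicate, beq_iff_eq]
  omega

theorem cB1 (n k z : ℕ) : (bd n (sg N1.L) (sg N1.C) k).count z =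
    (if z % 6 = 0 ∧ 6 ≤ z ∧ z < 6 + 6 * k then 1 else 0) +
      (if z % 6 = 1 ∧ 7 ≤ z ∧ z < 7 + 6 * k then n + 1 else 0) := by
  induction k with
  | zero =>
    have h : bd n (sg N1.L) (sg N1.C) 0 = [] := rfl
    rw [h, List.count_nil]
    split_ifs <;> omega
  | succ k ih =>
    rw [cbd, ih]
    have h1 : N1.L k = 6 + 6 * k := rfl
    have h2 : N1.C k = 7 + 6 * k := rfl
    rw [h1, h2]
    split_ifs <;> omega

theorem cB2 (n m k z : ℕ) : (bd n (sg (N2 m).L) (sg (N2 m).C) k).count z =
    (if z % 6 = 3 ∧ 9 ≤ z ∧ z < 9 + 6 * k then 1 else 0) +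
      (if z % 6 = 4 ∧ 10 ≤ z ∧ z < 10 + 6 * k then n + 1 else 0) := by
  induction k with
  | zero =>
    have h : bd n (sg (N2 m).L) (sg (N2 m).C) 0 = [] := rfl
    rw [h, List.count_nil]
    split_ifs <;> omega
  | succ k ih =>
    rw [cbd, ih]
    have h1 : (N2 m).L k = 9 + 6 * k := rfl
    have h2 : (N2 m).C k = 10 + 6 * k := rfl
    rw [h1, h2]
    split_ifs <;> omega

/-- blocks of level 1 -/
theorem cT1 (n m i z : ℕ) (hz : z % 6 ≠ 3) (hz' : z % 6 ≠ 4 ∨ z ≤ 4) :
    (N1.S i :: T1 n m i).count z = (if z = 5 + 6 * i then 1 else 0) +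
      (if z = 6 + 6 * i then 1 else 0) + (if i = m ∧ z = 12 + 6 * m then 1 else 0) := by
  have h0 : N1.S i = 5 + 6 * i := rfl
  have h1 : N1.L i = 6 + 6 * i := rfl
  have h2 : N1.L m = 6 + 6 * m := rfl
  have h3 : N1.L (m + 1) = 6 + 6 * (m + 1) := rfl
  have h4 : (N2 m).L (m + 1) = 9 + 6 * (m + 1) := rfl
  unfold T1
  by_cases him : i = m
  · subst him
    rw [if_pos rfl, List.count_cons, List.count_cons, List.count_append, cB2, h0, h1, h3, h4]
    simp only [List.count_cons, List.count_nil, beq_iff_eq, true_and]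
    split_ifs <;> omega
  · rw [if_neg him, h0, h1]
    simp only [List.count_cons, List.count_nil, beq_iff_eq]
    split_ifs <;> omega

/-- blocks of level 2 -/
theorem cT2 (m i z : ℕ) (hz : z % 6 ≠ 3) (hz' : z % 6 ≠ 2 ∨ z ≤ 2) :
    ((N2 m).S i :: T2 m i).count z = 0 := by
  have h0 : (N2 m).S i = 8 + 6 * i := rfl
  have h1 : (N2 m).L i = 9 + 6 * i := rfl
  have h2 : (N2 m).L m = 9 + 6 * m := rfl
  have h4 : (N2 m).L (m + 1) = 9 + 6 * (m + 1) := rfl
  unfold T2
  by_cases him : i = m
  · subst him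
    rw [if_pos rfl, h0, h1, h4]
    simp only [List.count_cons, List.count_nil, beq_iff_eq]
    split_ifs <;> omega
  · rw [if_neg him, h0, h1]
    simp only [List.count_cons, List.count_nil, beq_iff_eq]
    split_ifs <;> omega

theorem cfm_zero {τ : List ℕ} {f : ℕ → List ℕ} {z : ℕ} (h : ∀ i ∈ τ, (f i).count z = 0) :
    (τ.flatMap f).count z = 0 := by
  induction τ with
  | nil => rfl
  | cons a τ ih =>
    rw [List.flatMap_cons, List.count_append, h a (by simp),
      ih (fun i hi => h i (List.mem_cons_of_mem _ hi))]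

theorem cfm_one {τ : List ℕ} {f : ℕ → List ℕ} {z a : ℕ} (hn : τ.Nodup) (ha : a ∈ τ)
    (h : ∀ i ∈ τ, i ≠ a → (f i).count z = 0) : (τ.flatMap f).count z = (f a).count z := by
  induction τ with
  | nil => simp at ha
  | cons b τ ih =>
    rw [List.flatMap_cons, List.count_append]
    rw [List.nodup_cons] at hn
    rcases List.mem_cons.1 ha with rfl | h3
    · rw [cfm_zero, Nat.add_zero]
      intro i hi
      exact h i (List.mem_cons_of_mem _ hi) (fun h => hn.1 (h ▸ hi))
    · rw [h b (by simp) (fun h => hn.1 (h ▸ h3)), Nat.zero_add]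
      exact ih hn.2 h3 (fun i hi => h i (List.mem_cons_of_mem _ hi))

/-- the tails of level 1 -/
theorem cTT {τ : List ℕ} {n m : ℕ} (hτ : Tau τ m) (z : ℕ) (hz : z % 6 ≠ 3)
    (hz' : z % 6 ≠ 4 ∨ z ≤ 4) :
    (τ.flatMap (fun i => N1.S i :: T1 n m i)).count z =
      (if (z % 6 = 5 ∧ z ≤ 5 + 6 * m) ∨ (z % 6 = 0 ∧ 6 ≤ z ∧ z ≤ 12 + 6 * m) then 1 else 0) := by
  by_cases h5 : z % 6 = 5 ∧ z ≤ 5 + 6 * m
  · have hm : z / 6 ∈ τ := (hτ.2 _).2 (by omega)
    rw [cfm_one hτ.1 hm, cT1 n m _ z hz hz']
    · split_ifs <;> omega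
    · intro i hi hne
      rw [cT1 n m _ z hz hz']
      split_ifs <;> omega
  · by_cases h6 : z % 6 = 0 ∧ 6 ≤ z ∧ z ≤ 12 + 6 * m
    · by_cases h7 : z = 12 + 6 * m
      · have hm : m ∈ τ := (hτ.2 _).2 (by omega)
        rw [cfm_one hτ.1 hm, cT1 n m _ z hz hz']
        · split_ifs <;> omega
        · intro i hi hne
          have := (hτ.2 i).1 hi
          rw [cT1 n m _ z hz hz']
          split_ifs <;> omega
      · have hm : z / 6 - 1 ∈ τ := (hτ.2 _).2 (by omega)
        rw [cfm_one hτ.1 hm, cT1 n m _ z hz hz']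
        · split_ifs <;> omega
        · intro i hi hne
          rw [cT1 n m _ z hz hz']
          split_ifs <;> omega
    · rw [cfm_zero]
      · split_ifs <;> omega
      · intro i hi
        have := (hτ.2 i).1 hi
        rw [cT1 n m _ z hz hz']
        split_ifs <;> omega

/-- the word -/
theorem wform (n : ℕ) (τ : List ℕ) (m : ℕ) : w0 n τ m true true =
    [0, 1, 2, 0] ++ (bd n (sg N1.L) (sg N1.C) m ++ ([6 + 6 * m, 12 + 6 * m, 1, 3] ++
      (τ.flatMap (fun i => N1.S i :: T1 n m i) ++
        ([4] ++ τ.flatMap (fun i => (N2 m).S i :: T2 m i))))) := by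
  have h2 : N1.L m = 6 + 6 * m := rfl
  have h3 : N1.L (m + 1) = 12 + 6 * m := by
    show 6 + 6 * (m + 1) = 12 + 6 * m
    ring
  unfold w0 ww
  rw [if_pos rfl, if_pos rfl, h2, h3]
  simp

theorem cT2z (τ : List ℕ) (m z : ℕ) (hz : z % 6 ≠ 3 ∨ z = 3) (hz2 : z % 6 ≠ 2 ∨ z ≤ 2) :
    (τ.flatMap (fun i => (N2 m).S i :: T2 m i)).count z = 0 := by
  by_cases h3 : z = 3
  · subst h3
    apply cfm_zero
    intro i _
    have h0 : (N2 m).S i = 8 + 6 * i := rfl
    have h1 : (N2 m).L i = 9 + 6 * i := rfl
    have h2 : (N2 m).L m = 9 + 6 * m := rfl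
    have h4 : (N2 m).L (m + 1) = 9 + 6 * (m + 1) := rfl
    unfold T2
    rw [h0, h1, h2, h4]
    split_ifs
    · simp only [List.count_cons, List.count_nil, beq_iff_eq]
      split_ifs <;> omega
    · simp only [List.count_cons, List.count_nil, beq_iff_eq]
      split_ifs <;> omega
  · exact cfm_zero (fun i _ => cT2 m i z (by omega) hz2)

theorem cT1z {τ : List ℕ} {n m : ℕ} (hτ : Tau τ m) (z : ℕ) (hz : z % 6 ≠ 3 ∨ z = 3)
    (hz' : z % 6 ≠ 4) :
    (τ.flatMap (fun i => N1.S i :: T1 n m i)).count z =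
      (if (z % 6 = 5 ∧ z ≤ 5 + 6 * m) ∨ (z % 6 = 0 ∧ 6 ≤ z ∧ z ≤ 12 + 6 * m) then 1 else 0) := by
  by_cases h3 : z = 3
  · subst h3
    rw [if_neg (by omega)]
    apply cfm_zero
    intro i _
    have h0 : N1.S i = 5 + 6 * i := rfl
    have h1 : N1.L i = 6 + 6 * i := rfl
    have h2 : N1.L m = 6 + 6 * m := rfl
    have h3 : N1.L (m + 1) = 6 + 6 * (m + 1) := rfl
    have h4 : (N2 m).L (m + 1) = 9 + 6 * (m + 1) := rfl
    unfold T1
    by_cases him : i = m
    · subst him
      rw [if_pos rfl, List.count_cons, List.count_cons, List.count_append, cB2, h0, h1, h3,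
        h4]
      simp only [List.count_cons, List.count_nil, beq_iff_eq]
      split_ifs <;> omega
    · rw [if_neg him, h0, h1]
      simp only [List.count_cons, List.count_nil, beq_iff_eq]
      split_ifs <;> omega
  · exact cTT hτ z (by omega) (Or.inl hz')

theorem cH (z : ℕ) : [0, 1, 2, 0].count z =
    (if z = 0 then 2 else 0) + (if z = 1 then 1 else 0) + (if z = 2 then 1 else 0) := by
  simp only [List.count_cons, List.count_nil, beq_iff_eq]
  split_ifs <;> omega

theorem cM (m z : ℕ) : [6 + 6 * m, 12 + 6 * m, 1, 3].count z =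
    (if z = 6 + 6 * m ∨ z = 12 + 6 * m then 1 else 0) + (if z = 1 ∨ z = 3 then 1 else 0) := by
  simp only [List.count_cons, List.count_nil, beq_iff_eq]
  split_ifs <;> omega

/-- the counts of the word -/
theorem cw {τ : List ℕ} {n m : ℕ} (hτ : Tau τ m) (z : ℕ) (hz : z % 6 ≠ 3 ∨ z = 3)
    (hz' : z % 6 ≠ 4) (hz2 : z % 6 ≠ 2 ∨ z ≤ 2) :
    (w0 n τ m true true).count z =
      ([0, 1, 2, 0].count z + ((bd n (sg N1.L) (sg N1.C) m).count z +
        ([6 + 6 * m, 12 + 6 * m, 1, 3].count z +
          (if (z % 6 = 5 ∧ z ≤ 5 + 6 * m) ∨ (z % 6 = 0 ∧ 6 ≤ z ∧ z ≤ 12 + 6 * m)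
            then 1 else 0)))) := by
  rw [wform, List.count_append, List.count_append, List.count_append, List.count_append,
    List.count_append, cT1z hτ z hz hz', cT2z τ m z hz hz2]
  have h : [4].count z = 0 := by
    apply List.count_eq_zero_of_not_mem
    rw [List.mem_singleton]
    omega
  omega

theorem w_0 {τ : List ℕ} {n m : ℕ} (hτ : Tau τ m) : (w0 n τ m true true).count 0 = 2 := by
  rw [cw hτ 0 (by omega) (by omega) (by omega), cH, cB1, cM,
    if_neg (show ¬ (0 = 6 + 6 * m ∨ 0 = 12 + 6 * m) by omega)]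
  simp

theorem w_1 {τ : List ℕ} {n m : ℕ} (hτ : Tau τ m) : (w0 n τ m true true).count 1 = 2 := by
  rw [cw hτ 1 (by omega) (by omega) (by omega), cH, cB1, cM,
    if_neg (show ¬ (1 = 6 + 6 * m ∨ 1 = 12 + 6 * m) by omega)]
  simp

theorem w_2 {τ : List ℕ} {n m : ℕ} (hτ : Tau τ m) : (w0 n τ m true true).count 2 = 1 := by
  rw [cw hτ 2 (by omega) (by omega) (by omega), cH, cB1, cM,
    if_neg (show ¬ (2 = 6 + 6 * m ∨ 2 = 12 + 6 * m) by omega)]
  simp

theorem w_3 {τ : List ℕ} {n m : ℕ} (hτ : Tau τ m) : (w0 n τ m true true).count 3 = 1 := by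
  rw [cw hτ 3 (by omega) (by omega) (by omega), cH, cB1, cM,
    if_neg (show ¬ (3 = 6 + 6 * m ∨ 3 = 12 + 6 * m) by omega)]
  simp

theorem w_L {τ : List ℕ} {n m : ℕ} (hτ : Tau τ m) (i : ℕ) (hi : i ≤ m + 1) :
    (w0 n τ m true true).count (6 + 6 * i) = 2 := by
  rw [cw hτ _ (by omega) (by omega) (by omega), cH, cB1, cM]
  rw [if_neg (by omega), if_neg (by omega), if_neg (by omega),
    if_neg (show ¬ ((6 + 6 * i) % 6 = 1 ∧ _) by omega), if_neg (show ¬ (6 + 6 * i = 1 ∨ _) by omega)]
  split_ifs <;> omega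

theorem w_C {τ : List ℕ} {n m : ℕ} (hτ : Tau τ m) (i : ℕ) (hi : i < m) :
    (w0 n τ m true true).count (7 + 6 * i) = n + 1 := by
  rw [cw hτ _ (by omega) (by omega) (by omega), cH, cB1, cM]
  rw [if_neg (by omega), if_neg (by omega), if_neg (by omega), if_neg (by omega),
    if_pos (by omega), if_neg (by omega), if_neg (by omega), if_neg (by omega)]
  omega

theorem w_S {τ : List ℕ} {n m : ℕ} (hτ : Tau τ m) (i : ℕ) (hi : i ≤ m) :
    (w0 n τ m true true).count (5 + 6 * i) = 1 := by
  rw [cw hτ _ (by omega) (by omega) (by omega), cH, cB1, cM]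
  rw [if_neg (by omega), if_neg (by omega), if_neg (by omega), if_neg (by omega),
    if_neg (by omega), if_neg (by omega), if_neg (by omega), if_pos (by omega)]

/-! ### the initial parts -/

theorem nm_of_count {w : List ℕ} {z : ℕ} (h : w.count z = 0) : z ∉ w := List.count_eq_zero.1 h

theorem pre2 (n : ℕ) (τ : List ℕ) (m : ℕ) : pre (w0 n τ m true true) 2 = [0, 1] := by
  rw [wform]
  simp [pre]

theorem pre1 (n : ℕ) (τ : List ℕ) (m : ℕ) : pre (w0 n τ m true true) 1 = [0] := by
  rw [wform]
  simp [pre]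

theorem pre3 (n : ℕ) (τ : List ℕ) (m : ℕ) : pre (w0 n τ m true true) 3 =
    [0, 1, 2, 0] ++ (bd n (sg N1.L) (sg N1.C) m ++ [6 + 6 * m, 12 + 6 * m, 1]) := by
  have e : w0 n τ m true true =
    ([0, 1, 2, 0] ++ (bd n (sg N1.L) (sg N1.C) m ++ [6 + 6 * m, 12 + 6 * m, 1])) ++ 3 ::
      (τ.flatMap (fun i => N1.S i :: T1 n m i) ++
        ([4] ++ τ.flatMap (fun i => (N2 m).S i :: T2 m i))) := by
    rw [wform]
    simp
  rw [e]
  apply MWK.pre_split
  apply nm_of_count
  rw [List.count_append, List.count_append, cH, cB1]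
  simp only [List.count_cons, List.count_nil, beq_iff_eq]
  rw [if_neg (show ¬ 6 + 6 * m = 3 by omega), if_neg (show ¬ 12 + 6 * m = 3 by omega)]
  simp

theorem preL (hB : PrbStmt) (n : ℕ) (τ : List ℕ) (m j : ℕ) (hj : j ≤ m + 1) :
    pre (w0 n τ m true true) (6 + 6 * j) =
      [0, 1, 2, 0] ++ (bd n (sg N1.L) (sg N1.C) (min j m) ++
        (if j = m + 1 then [6 + 6 * m] else [])) := by
  rw [wform, MWK.pre_append (by
    apply nm_of_count
    rw [cH, if_neg (by omega), if_neg (by omega), if_neg (by omega)])]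
  congr 1
  rcases Nat.lt_or_ge j m with h | h
  · rw [if_neg (by omega), min_eq_left (by omega), List.append_nil]
    exact hB n N1.L N1.C m j h (fun i _ i' _ h => by
      have h1 : N1.L i = 6 + 6 * i := rfl
      have h2 : N1.L i' = 6 + 6 * i' := rfl
      omega) (fun i _ i' _ h => by
      have h1 : N1.C i = 7 + 6 * i := rfl
      have h2 : N1.L i' = 6 + 6 * i' := rfl
      omega) _
  · rw [min_eq_right h, MWK.pre_append (by
      apply nm_of_count
      rw [cB1, if_neg (by omega), if_neg (by omega)])]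
    congr 1
    by_cases h2 : j = m + 1
    · subst h2
      rw [if_pos rfl]
      have h3 : 6 + 6 * (m + 1) = 12 + 6 * m := by ring
      rw [h3]
      show pre ([6 + 6 * m] ++ (12 + 6 * m) :: _) (12 + 6 * m) = _
      apply MWK.pre_split
      rw [List.mem_singleton]
      omega
    · have h3 : j = m := by omega
      subst h3
      rw [if_neg h2]
      show pre ((6 + 6 * j) :: _) (6 + 6 * j) = []
      exact MWK.pre_cons_self _ _

theorem preS (hF : MWGN.PrfStmt) {n : ℕ} {τ : List ℕ} {m : ℕ} (hτ : Tau τ m) (j : ℕ)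
    (hj : j ≤ m) : pre (w0 n τ m true true) (5 + 6 * j) =
      [0, 1, 2, 0] ++ (bd n (sg N1.L) (sg N1.C) m ++ ([6 + 6 * m, 12 + 6 * m, 1, 3] ++
        (pre τ j).flatMap (fun i => N1.S i :: T1 n m i))) := by
  rw [wform, MWK.pre_append (by
    apply nm_of_count
    rw [cH, if_neg (by omega), if_neg (by omega), if_neg (by omega)])]
  congr 1
  rw [MWK.pre_append (by
    apply nm_of_count
    rw [cB1, if_neg (by omega), if_neg (by omega)])]
  congr 1
  rw [MWK.pre_append (by
    apply nm_of_count
    rw [cM, if_neg (by omega), if_neg (by omega)])]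
  congr 1
  exact hF N1.S (T1 n m) τ j ((hτ.2 j).2 hj) (fun i _ hne h => by
    have h1 : N1.S i = 5 + 6 * i := rfl
    have h2 : N1.S j = 5 + 6 * j := rfl
    omega) (fun i _ hne => by
    have h2 : N1.S j = 5 + 6 * j := rfl
    have h3 := cT1 n m i (5 + 6 * j) (by omega) (Or.inl (by omega))
    rw [if_neg (by omega), if_neg (by omega), if_neg (by omega), List.count_cons] at h3
    rw [h2]
    apply nm_of_count
    omega) _

theorem p3c (n : ℕ) (τ : List ℕ) (m z : ℕ) : (pre (w0 n τ m true true) 3).count z =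
    [0, 1, 2, 0].count z + ((bd n (sg N1.L) (sg N1.C) m).count z +
      ((if z = 6 + 6 * m ∨ z = 12 + 6 * m then 1 else 0) + (if z = 1 then 1 else 0))) := by
  rw [pre3, List.count_append, List.count_append]
  congr 2
  simp only [List.count_cons, List.count_nil, beq_iff_eq]
  split_ifs <;> omega

theorem pLc (hB : PrbStmt) (n : ℕ) (τ : List ℕ) (m j z : ℕ) (hj : j ≤ m + 1)
    (hz : z ≠ 6 + 6 * m) :
    (pre (w0 n τ m true true) (6 + 6 * j)).count z =
      [0, 1, 2, 0].count z + (bd n (sg N1.L) (sg N1.C) (min j m)).count z := by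
  rw [preL hB n τ m j hj, List.count_append, List.count_append]
  have h : (if j = m + 1 then [6 + 6 * m] else []).count z = 0 := by
    split_ifs
    · apply List.count_eq_zero_of_not_mem
      rw [List.mem_singleton]
      exact hz
    · rfl
  rw [h, Nat.add_zero]

theorem sa1 (hF : MWGN.PrfStmt) (hB : PrbStmt) : Sa1Stmt := by
  intro n hn τ m hτ
  refine ⟨?_, ?_, ?_, ?_⟩
  · refine
      { sa := w_2 hτ
        sb := w_3 hτ
        ob := ?_
        x2 := ?_
        y2 := ?_
        xa := ?_
        ya := ?_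
        xb := ?_
        yb := ?_
        l2 := ?_
        l0 := ?_
        lb := ?_
        c2 := ?_
        c0 := ?_
        cb := ?_
        xl := ?_
        yl := ?_
        cl0 := ?_
        cl1 := ?_ }
    · show (pre (w0 n τ m true true) 2).count 3 = 0
      rw [pre2]
      rfl
    · show 2 ≤ (w0 n τ m true true).count 0
      rw [w_0 hτ]
    · show 2 ≤ (w0 n τ m true true).count 1
      rw [w_1 hτ]
    · show (pre (w0 n τ m true true) 2).count 0 = 1
      rw [pre2]
      rfl
    · show (pre (w0 n τ m true true) 2).count 1 = 1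
      rw [pre2]
      rfl
    · show (pre (w0 n τ m true true) 3).count 0 = (w0 n τ m true true).count 0
      rw [w_0 hτ, p3c, cH, cB1, if_neg (show ¬ (0 = 6 + 6 * m ∨ 0 = 12 + 6 * m) by omega)]
      simp
    · show (pre (w0 n τ m true true) 3).count 1 = (w0 n τ m true true).count 1
      rw [w_1 hτ, p3c, cH, cB1, if_neg (show ¬ (1 = 6 + 6 * m ∨ 1 = 12 + 6 * m) by omega)]
      simp
    · intro i hi
      show 2 ≤ (w0 n τ m true true).count (6 + 6 * i)
      rw [w_L hτ i hi]
    · intro i hi
      show (pre (w0 n τ m true true) 2).count (6 + 6 * i) = 0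
      rw [pre2]
      apply List.count_eq_zero_of_not_mem
      simp only [List.mem_cons, List.not_mem_nil, or_false]
      omega
    · intro i hi
      show (pre (w0 n τ m true true) 3).count (6 + 6 * i) = 1
      rw [p3c, cH, cB1, if_neg (by omega), if_neg (by omega), if_neg (by omega),
        if_neg (show ¬ ((6 + 6 * i) % 6 = 1 ∧ _) by omega)]
      split_ifs <;> omega
    · intro i hi
      show 2 ≤ (w0 n τ m true true).count (7 + 6 * i)
      rw [w_C hτ i hi]
      omega
    · intro i hi
      show (pre (w0 n τ m true true) 2).count (7 + 6 * i) = 0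
      rw [pre2]
      apply List.count_eq_zero_of_not_mem
      simp only [List.mem_cons, List.not_mem_nil, or_false]
      omega
    · intro i hi
      show (pre (w0 n τ m true true) 3).count (7 + 6 * i) =
        (w0 n τ m true true).count (7 + 6 * i)
      rw [w_C hτ i hi, p3c, cH, cB1, if_neg (by omega), if_neg (by omega), if_neg (by omega),
        if_neg (by omega), if_pos (by omega), if_neg (by omega)]
      omega
    · intro i hi
      show (pre (w0 n τ m true true) (6 + 6 * i)).count 0 = (w0 n τ m true true).count 0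
      rw [w_0 hτ, pLc hB n τ m i 0 hi (by omega), cH, cB1]
      simp
    · intro i hi
      show (pre (w0 n τ m true true) (6 + 6 * i)).count 1 = 1
      rw [pLc hB n τ m i 1 hi (by omega), cH, cB1]
      simp
    · intro i hi j hj
      show (pre (w0 n τ m true true) (6 + 6 * j)).count (7 + 6 * i) = 0
      rw [pLc hB n τ m j _ (by omega) (by omega), cH, cB1, min_eq_left (by omega),
        if_neg (by omega), if_neg (by omega), if_neg (by omega), if_neg (by omega),
        if_neg (by omega)]
    · intro i hi j hj hj'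
      show (pre (w0 n τ m true true) (6 + 6 * j)).count (7 + 6 * i) =
        (w0 n τ m true true).count (7 + 6 * i)
      have h1 : i < min j m := lt_min hj hi
      rw [w_C hτ i hi, pLc hB n τ m j _ (by omega) (by omega), cH, cB1,
        if_neg (by omega), if_neg (by omega), if_neg (by omega), if_neg (by omega),
        if_pos (by omega)]
      omega
  · refine
      { ss := ?_
        oS := ?_
        os := ?_
        lt := ?_
        lT := ?_ }
    · intro i hi
      show (w0 n τ m true true).count (5 + 6 * i) = 1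
      exact w_S hτ i hi
    · intro i hi
      show (pre (w0 n τ m true true) 3).count (5 + 6 * i) = 0
      rw [p3c, cH, cB1, if_neg (by omega), if_neg (by omega), if_neg (by omega),
        if_neg (by omega), if_neg (by omega), if_neg (by omega)]
    · intro i j hi hj hij
      show (pre (w0 n τ m true true) (5 + 6 * i)).count (5 + 6 * j) = 0
      have h1 : ((pre τ i).flatMap (fun i => N1.S i :: T1 n m i)).count (5 + 6 * j) = 0 := by
        apply cfm_zero
        intro i' hi'
        have hne : i' ≠ j := by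
          rintro rfl
          exact MWK.pre_asymm hij hi'
        rw [cT1 n m i' _ (by omega) (Or.inl (by omega)), if_neg (by omega), if_neg (by omega),
          if_neg (by omega)]
      rw [preS hF hτ i hi, List.count_append, List.count_append, List.count_append, h1, cH,
        cB1, cM, if_neg (by omega), if_neg (by omega), if_neg (by omega), if_neg (by omega),
        if_neg (by omega), if_neg (by omega), if_neg (by omega)]
    · intro i hi
      show (pre (w0 n τ m true true) (5 + 6 * i)).count (6 + 6 * i) = 1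
      have h1 : ((pre τ i).flatMap (fun i => N1.S i :: T1 n m i)).count (6 + 6 * i) = 0 := by
        apply cfm_zero
        intro i' hi'
        have hne : i' ≠ i := by
          rintro rfl
          exact MWK.not_mem_pre _ _ hi'
        rw [cT1 n m i' _ (by omega) (Or.inl (by omega)), if_neg (by omega), if_neg (by omega),
          if_neg (by omega)]
      rw [preS hF hτ i hi, List.count_append, List.count_append, List.count_append, h1, cH,
        cB1, cM, if_neg (by omega), if_neg (by omega), if_neg (by omega),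
        if_neg (show ¬ ((6 + 6 * i) % 6 = 1 ∧ _) by omega),
        if_neg (show ¬ (6 + 6 * i = 1 ∨ _) by omega)]
      split_ifs <;> omega
    · intro i j hi hj hij
      show (pre (w0 n τ m true true) (5 + 6 * j)).count (6 + 6 * i) =
        (w0 n τ m true true).count (6 + 6 * i)
      have h1 : ((pre τ j).flatMap (fun i => N1.S i :: T1 n m i)).count (6 + 6 * i) = 1 := by
        rw [cfm_one ((MWK.pre_prefix τ j).sublist.nodup hτ.1) hij,
          cT1 n m i _ (by omega) (Or.inl (by omega)), if_neg (by omega), if_pos rfl,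
          if_neg (by omega)]
        intro i' hi' hne
        rw [cT1 n m i' _ (by omega) (Or.inl (by omega)), if_neg (by omega), if_neg (by omega),
          if_neg (by omega)]
      rw [w_L hτ i (by omega), preS hF hτ j hj, List.count_append, List.count_append,
        List.count_append, h1, cH,
        cB1, cM, if_neg (by omega), if_neg (by omega), if_neg (by omega),
        if_neg (show ¬ ((6 + 6 * i) % 6 = 1 ∧ _) by omega),
        if_neg (show ¬ (6 + 6 * i = 1 ∨ _) by omega)]
      split_ifs <;> omega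
  · show (pre (w0 n τ m true true) 1).count 0 = 1
    rw [pre1]
    rfl
  · refine
      { x := ?_
        y := ?_
        l := ?_
        c := ?_ }
    · show (w0 n τ m true true).count 0 ≡ 2 [MOD n]
      rw [w_0 hτ]
    · show (w0 n τ m true true).count 1 ≡ 2 [MOD n]
      rw [w_1 hτ]
    · intro i hi
      show (w0 n τ m true true).count (6 + 6 * i) ≡ 2 [MOD n]
      rw [w_L hτ i hi]
    · intro i hi
      show (w0 n τ m true true).count (7 + 6 * i) ≡ 1 [MOD n]
      rw [w_C hτ i hi]
      unfold Nat.ModEq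
      rw [Nat.add_mod_left]

end Pool.Agent.MWGQ.H32
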